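import Mathlib
import Pool.Agent.H16.TestExponentDef

/-!
# MP_dca5ce_ag: descent of test exponents along faithfully flat extensions of local domains
-/

namespace Pool.Agent.H19.Mult

open IsLocalRing TensorProduct
open Pool.Agent.H16

universe u

section descent

variable (R R' : Type u) [CommRing R] [CommRing R'] [Algebra R R']

theorem flat_descent [Module.FaithfullyFlat R R'] (M : Type u) [AddCommGroup M] [Module R M]
    [Module.Flat R' (R' ⊗[R] M)] : Module.Flat R M := by
  have h1 : Module.Flat R (R' ⊗[R] M) := Module.Flat.trans R R' _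
  rw [Module.Flat.iff_lTensor_preserves_injective_linearMap]
  intro N N' _ _ _ _ f hf
  have h2 := Module.Flat.lTensor_preserves_injective_linearMap (M := R' ⊗[R] M) f hf
  rw [LinearMap.lTensor_tensor] at h2
  have h3 : Function.Injective (LinearMap.lTensor R' (LinearMap.lTensor M f)) := by
    have h4 := (TensorProduct.assoc R R' M N').injective.comp
      (h2.comp (TensorProduct.assoc R R' M N).symm.injective)
    convert h4 using 1
    funext z
    simp
  exact (Module.FaithfullyFlat.lTensor_injective_iff_injective R R' _).mp h3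

theorem torsion_baseChange [IsDomain R] [IsDomain R'] [Module.Flat R R'] (T : Type u)
    [AddCommGroup T] [Module R T] (hT : Submodule.torsion R T = ⊥) :
    Submodule.torsion R' (R' ⊗[R] T) = ⊥ := by
  let K := FractionRing R
  let V := K ⊗[R] T
  let ι : T →ₗ[R] V := TensorProduct.mk R K T 1
  have hloc : IsLocalizedModule (nonZeroDivisors R) ι := inferInstance
  have hι : Function.Injective ι := by
    rw [← LinearMap.ker_eq_bot, LinearMap.ker_eq_bot']
    intro t ht
    obtain ⟨s, hs⟩ := (IsLocalizedModule.eq_zero_iff (nonZeroDivisors R) ι).mp ht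
    have : t ∈ Submodule.torsion R T := ⟨s, hs⟩
    rw [hT] at this
    exact this
  have hK : Module.Flat R K := IsLocalization.flat K (nonZeroDivisors R)
  have hV : Module.Flat R V := Module.Flat.trans R K V
  have h1 : Function.Injective (LinearMap.lTensor R' ι) :=
    Module.Flat.lTensor_preserves_injective_linearMap ι hι
  rw [eq_bot_iff]
  rintro t ⟨⟨r, hr⟩, hrt⟩
  have hrt' : r • t = 0 := hrt
  rw [Submodule.mem_bot]
  apply h1
  rw [map_zero]
  have h2 : Function.Injective (LinearMap.mulLeft R r) := by
    intro a b hab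
    exact mul_left_cancel₀ (nonZeroDivisors.ne_zero hr) hab
  have h3 : Function.Injective (LinearMap.rTensor V (LinearMap.mulLeft R r)) :=
    Module.Flat.rTensor_preserves_injective_linearMap _ h2
  apply h3
  rw [map_zero]
  have h4 : ∀ z : R' ⊗[R] T, LinearMap.rTensor V (LinearMap.mulLeft R r) (LinearMap.lTensor R' ι z) =
      LinearMap.lTensor R' ι (r • z) := by
    intro z
    induction z using TensorProduct.induction_on with
    | zero => simp
    | tmul a b => simp [TensorProduct.smul_tmul']
    | add x y hx hy => rw [map_add, map_add, hx, hy, smul_add, map_add]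
  rw [h4, hrt', map_zero]

theorem tensorPower_baseChange (M : Type u) [AddCommGroup M] [Module R M] (e : ℕ) :
    Nonempty ((R' ⊗[R] TensorPower R e M) ≃ₗ[R'] TensorPower R' e (R' ⊗[R] M)) := by
  induction e with
  | zero =>
    let e1 : TensorPower R 0 M ≃ₗ[R] R := PiTensorProduct.isEmptyEquiv (Fin 0)
    let e2 : TensorPower R' 0 (R' ⊗[R] M) ≃ₗ[R'] R' := PiTensorProduct.isEmptyEquiv (Fin 0)
    exact ⟨(e1.baseChange R R' _ _).trans
      ((TensorProduct.AlgebraTensorModule.rid R R' R').trans e2.symm)⟩
  | succ n ih =>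
    obtain ⟨E⟩ := ih
    let e1 : TensorPower R 1 M ≃ₗ[R] M := PiTensorProduct.subsingletonEquiv (0 : Fin 1)
    let e2 : TensorPower R' 1 (R' ⊗[R] M) ≃ₗ[R'] (R' ⊗[R] M) :=
      PiTensorProduct.subsingletonEquiv (0 : Fin 1)
    let m1 : TensorPower R n M ⊗[R] TensorPower R 1 M ≃ₗ[R] TensorPower R (n + 1) M :=
      TensorPower.mulEquiv
    let m2 : TensorPower R' n (R' ⊗[R] M) ⊗[R'] TensorPower R' 1 (R' ⊗[R] M) ≃ₗ[R']
        TensorPower R' (n + 1) (R' ⊗[R] M) := TensorPower.mulEquiv
    let a1 : R' ⊗[R] TensorPower R (n + 1) M ≃ₗ[R']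
        R' ⊗[R] (TensorPower R n M ⊗[R] TensorPower R 1 M) := m1.symm.baseChange R R' _ _
    let a2 := TensorProduct.AlgebraTensorModule.distribBaseChange R R' (TensorPower R n M)
      (TensorPower R 1 M)
    let e3 : R' ⊗[R] TensorPower R 1 M ≃ₗ[R'] TensorPower R' 1 (R' ⊗[R] M) :=
      (e1.baseChange R R' _ _).trans e2.symm
    let a3 := TensorProduct.congr E e3
    exact ⟨a1.trans (a2.trans (a3.trans m2))⟩

theorem descend [IsDomain R] [IsLocalRing R] [IsNoetherianRing R] [IsDomain R']
    [Module.FaithfullyFlat R R'] {e : ℕ} (h : IsTestExponent R' e) : IsTestExponent R e := by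
  intro M _ _ hfin htor hfree hbot
  obtain ⟨E⟩ := tensorPower_baseChange R R' M e
  have h1 : ¬ Module.Free R' (R' ⊗[R] M) := by
    intro hfr
    apply hfree
    have : Module.Flat R M := flat_descent R R' M
    exact Module.free_of_flat_of_isLocalRing
  have h2 := h (R' ⊗[R] M) inferInstance (torsion_baseChange R R' M htor) h1
  apply h2
  have h3 := torsion_baseChange R R' (TensorPower R e M) hbot
  rw [eq_bot_iff]
  rintro t ⟨r, hrt⟩
  have hrt' : r • t = 0 := hrt
  have h4 : E.symm t ∈ Submodule.torsion R' (R' ⊗[R] TensorPower R e M) := by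
    refine ⟨r, ?_⟩
    show r • E.symm t = 0
    rw [Submonoid.smul_def, ← map_smul, ← Submonoid.smul_def, hrt', map_zero]
  rw [h3, Submodule.mem_bot] at h4
  rw [Submodule.mem_bot]
  exact (LinearEquiv.map_eq_zero_iff E.symm).mp h4

end descent

end Pool.Agent.H19.Mult
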