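import Mathlib

/-!
# MP_dca5ce_ag: the extension `R(X)` of a local ring
-/

namespace Pool.Agent.H19.Mult

open IsLocalRing Polynomial

universe u

section ext

variable (R : Type u) [CommRing R] [IsLocalRing R]

/-- the prime ideal of polynomials without unit coefficients -/
noncomputable def extPrime : Ideal R[X] := (maximalIdeal R).map C

instance extPrime_isPrime : (extPrime R).IsPrime :=
  Ideal.isPrime_map_C_of_isPrime (P := maximalIdeal R)

/-- `R(X)` -/
abbrev Ext : Type u := Localization.AtPrime (extPrime R)

theorem mem_extPrime {f : R[X]} : f ∈ extPrime R ↔ ∀ n, f.coeff n ∈ maximalIdeal R :=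
  Ideal.mem_map_C_iff

instance [IsNoetherianRing R] : IsNoetherianRing (Ext R) :=
  IsLocalization.isNoetherianRing (extPrime R).primeCompl _ inferInstance

instance [IsDomain R] : IsDomain (Ext R) :=
  IsLocalization.isDomain_localization (extPrime R).primeCompl_le_nonZeroDivisors

theorem map_maximalIdeal_ext :
    (maximalIdeal R).map (algebraMap R (Ext R)) = maximalIdeal (Ext R) := by
  rw [← Localization.AtPrime.map_eq_maximalIdeal]
  show _ = Ideal.map (algebraMap R[X] (Ext R)) ((maximalIdeal R).map C)
  rw [Ideal.map_map, IsScalarTower.algebraMap_eq R R[X] (Ext R)]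
  rfl

instance : Module.Flat R (Ext R) := by
  have h1 : Module.Flat R[X] (Ext R) := IsLocalization.flat _ (extPrime R).primeCompl
  exact Module.Flat.trans R R[X] (Ext R)

instance : IsLocalHom (algebraMap R (Ext R)) := by
  have h := (((IsLocalRing.local_hom_TFAE (algebraMap R (Ext R))).out 0 2)).mpr
    (map_maximalIdeal_ext R).le
  exact h

instance : Module.FaithfullyFlat R (Ext R) := Module.FaithfullyFlat.of_flat_of_isLocalHom

theorem infinite_residue : Infinite (ResidueField (Ext R)) := by
  refine Infinite.of_injective (fun n : ℕ => residue (Ext R) (algebraMap R[X] (Ext R) (X ^ n))) ?_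
  intro n m hnm
  by_contra hne
  have h1 : algebraMap R[X] (Ext R) (X ^ n - X ^ m) ∈ maximalIdeal (Ext R) := by
    rw [← residue_eq_zero_iff, map_sub, map_sub, sub_eq_zero]
    exact hnm
  have h2 : X ^ n - X ^ m ∈ extPrime R := by
    rw [← IsLocalization.AtPrime.under_maximalIdeal (Ext R) (extPrime R)]
    exact h1
  have h3 := (mem_extPrime R).mp h2 n
  rw [coeff_sub, coeff_X_pow, coeff_X_pow, if_pos rfl, if_neg hne, sub_zero] at h3
  exact (mem_maximalIdeal _).1 h3 isUnit_one

end ext

theorem spanFinrank_ext (R : Type u) [CommRing R] [IsLocalRing R] [IsNoetherianRing R] (i : ℕ) :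
    Submodule.spanFinrank (maximalIdeal (Ext R) ^ i) ≤ Submodule.spanFinrank (maximalIdeal R ^ i) := by
  have hfg : (maximalIdeal R ^ i).FG := IsNoetherian.noetherian _
  have h1 := Submodule.FG.generators_ncard hfg
  have h2 := Submodule.span_generators (maximalIdeal R ^ i)
  have h3 : maximalIdeal (Ext R) ^ i = Ideal.span (algebraMap R (Ext R) ''
      (maximalIdeal R ^ i : Ideal R).generators) := by
    rw [← map_maximalIdeal_ext, ← Ideal.map_pow, ← Ideal.map_span]
    congr 1
    exact h2.symm
  rw [h3]
  refine (Submodule.spanFinrank_span_le_ncard_of_finite ((Submodule.FG.finite_generators hfg).image _)).trans ?_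
  rw [← h1]
  exact Set.ncard_image_le (Submodule.FG.finite_generators hfg)

end Pool.Agent.H19.Mult
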