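import Mathlib

/-!
# MP_dca5ce_ag: limits
-/

namespace Pool.Agent.H19.Mult

open Filter Topology

/-- `((n + s) / n) ^ d → 1` -/
theorem ratio_tendsto (s d : ℕ) :
    Tendsto (fun n : ℕ => (((n + s : ℕ) : ℝ) / n) ^ d) atTop (𝓝 1) := by
  have h1 : Tendsto (fun n : ℕ => ((n + s : ℕ) : ℝ) / n) atTop (𝓝 1) := by
    have h2 : Tendsto (fun n : ℕ => 1 + (s : ℝ) / n) atTop (𝓝 (1 + 0)) :=
      tendsto_const_nhds.add (tendsto_const_div_atTop_nhds_zero_nat (s : ℝ))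
    rw [add_zero] at h2
    refine h2.congr' ?_
    filter_upwards [eventually_gt_atTop 0] with n hn
    have : (n : ℝ) ≠ 0 := by exact_mod_cast hn.ne'
    push_cast
    field_simp
  have := h1.pow d
  rwa [one_pow] at this

theorem shift_tendsto {H : ℕ → ℕ} {d : ℕ} {μ : ℝ} (s : ℕ)
    (hH : Tendsto (fun n : ℕ => (d.factorial : ℝ) * (H n : ℝ) / (n : ℝ) ^ d) atTop (𝓝 μ)) :
    Tendsto (fun n : ℕ => (d.factorial : ℝ) * (H (n + s) : ℝ) / (n : ℝ) ^ d) atTop (𝓝 μ) := by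
  have h1 := (hH.comp (tendsto_add_atTop_nat s)).mul (ratio_tendsto s d)
  rw [mul_one] at h1
  refine h1.congr' ?_
  filter_upwards [eventually_gt_atTop 0] with n hn
  have h2 : (n : ℝ) ≠ 0 := by exact_mod_cast hn.ne'
  have h3 : ((n + s : ℕ) : ℝ) ≠ 0 := by
    have : 0 < n + s := by omega
    exact_mod_cast this.ne'
  simp only [Function.comp_apply]
  rw [div_pow]
  field_simp

theorem growth {h : ℕ → ℕ} {d : ℕ} {μ : ℝ}
    (hH : Tendsto (fun n : ℕ => (d.factorial : ℝ) * ((∑ i ∈ Finset.range n, h i : ℕ) : ℝ) /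
      (n : ℝ) ^ d) atTop (𝓝 μ)) (s : ℕ) :
    ∃ n : ℕ, 1 ≤ n ∧ ∑ i ∈ Finset.Ico n (n + s), h i < (n + d).choose d := by
  have h1 := (shift_tendsto s hH).sub hH
  rw [sub_self] at h1
  have h2 := h1.eventually (gt_mem_nhds (show (0 : ℝ) < 1 by norm_num))
  obtain ⟨n, hn, hn1⟩ := (h2.and (eventually_ge_atTop 1)).exists
  refine ⟨n, hn1, ?_⟩
  have h3 : (0 : ℝ) < (n : ℝ) ^ d := by
    have : 0 < n := hn1
    positivity
  rw [← sub_div, div_lt_one h3, ← mul_sub] at hn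
  have h4 : ((∑ i ∈ Finset.range (n + s), h i : ℕ) : ℝ) - ((∑ i ∈ Finset.range n, h i : ℕ) : ℝ) =
      ((∑ i ∈ Finset.Ico n (n + s), h i : ℕ) : ℝ) := by
    rw [← Finset.sum_range_add_sum_Ico _ (Nat.le_add_right n s)]
    push_cast
    ring
  rw [h4] at hn
  have h5 : d.factorial * ∑ i ∈ Finset.Ico n (n + s), h i < n ^ d := by exact_mod_cast hn
  have h6 : n ^ d ≤ d.factorial * (n + d).choose d := by
    calc n ^ d ≤ (n + 1) ^ d := Nat.pow_le_pow_left (Nat.le_succ n) d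
      _ ≤ (n + 1).ascFactorial d := Nat.pow_succ_le_ascFactorial (n + 1) d
      _ = d.factorial * (n + d).choose d := Nat.ascFactorial_eq_factorial_mul_choose n d
  exact Nat.lt_of_mul_lt_mul_left (h5.trans_le h6)

theorem bound {H : ℕ → ℕ} {d s L μ : ℕ}
    (hH : Tendsto (fun n : ℕ => (d.factorial : ℝ) * (H n : ℝ) / (n : ℝ) ^ d) atTop (𝓝 (μ : ℝ)))
    (hL : ∀ n, n ^ d * L ≤ d.factorial * H (n + s)) : L ≤ μ := by
  have h1 := shift_tendsto s hH
  have h2 : (L : ℝ) ≤ μ := by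
    refine ge_of_tendsto h1 ?_
    filter_upwards [eventually_gt_atTop 0] with n hn
    have h3 : (0 : ℝ) < (n : ℝ) ^ d := by positivity
    rw [le_div_iff₀ h3, mul_comm]
    exact_mod_cast hL n
  exact_mod_cast h2

end Pool.Agent.H19.Mult
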