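import Pool.Agent.H19.Mult.Reg
import Pool.Agent.H19.Mult.Lim
import Pool.Agent.H16.BoundedGen
import Pool.Agent.H16.TensorMain
import Pool.Agent.H16.TestExponentDef

/-!
# MP_dca5ce_ag: numbers of generators and the case of an infinite residue field
-/

namespace Pool.Agent.H19.Mult

open IsLocalRing Filter Topology

universe u

theorem Ln_comap {R A : Type u} [CommRing R] [CommRing A] [Algebra R A]
    (hs : Function.Surjective (algebraMap R A)) (J : Ideal A) :
    Ln J = Ln (J.comap (algebraMap R A)) := by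
  unfold Ln
  have h1 : Module.length R (A ⧸ J) = Module.length A (A ⧸ J) :=
    Module.length_eq_of_surjective hs
  rw [← h1]
  let f : R →ₗ[R] (A ⧸ J) := (Algebra.linearMap R (A ⧸ J))
  have hf : Function.Surjective f := by
    intro z
    obtain ⟨a, rfl⟩ := Ideal.Quotient.mk_surjective z
    obtain ⟨r, rfl⟩ := hs a
    exact ⟨r, rfl⟩
  have hker : LinearMap.ker f = J.comap (algebraMap R A) := by
    ext r
    rw [LinearMap.mem_ker, Ideal.mem_comap]
    show algebraMap R (A ⧸ J) r = 0 ↔ _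
    rw [IsScalarTower.algebraMap_apply R A (A ⧸ J)]
    exact Ideal.Quotient.eq_zero_iff_mem
  rw [← hker]
  exact (LinearMap.quotKerEquivOfSurjective f hf).symm.length_eq

section loc

variable {A : Type u} [CommRing A] [IsLocalRing A] [IsNoetherianRing A]

theorem Ln_pow_ne_top (n : ℕ) : Ln (maximalIdeal A ^ n) ≠ ⊤ := by
  rw [Ln_pow]
  exact ENat.coe_ne_top _

omit [IsLocalRing A] [IsNoetherianRing A] in
/-- `Ln (y J) = Ln J + Ln (y)` for a nonzerodivisor `y` -/
theorem Ln_mul_span {y : A} (hy : ∀ z, y * z = 0 → z = 0) (J : Ideal A) :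
    Ln (Ideal.span {y} * J) = Ln J + Ln (Ideal.span {y}) := by
  rw [Ln_add (Ideal.mul_le_left : Ideal.span {y} * J ≤ Ideal.span {y})]
  congr 1
  -- `A / J ≃ (y) / (y J)`
  let Y : Ideal A := Ideal.span {y}
  let W := Y ⧸ (Submodule.comap Y.subtype (Ideal.span {y} * J))
  let g : A →ₗ[A] W := LinearMap.toSpanSingleton A W
    (Submodule.Quotient.mk ⟨y, Ideal.mem_span_singleton_self y⟩)
  have hg : Function.Surjective g := by
    intro z
    obtain ⟨⟨w, hw⟩, rfl⟩ := Submodule.mkQ_surjective _ z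
    obtain ⟨a, rfl⟩ := Ideal.mem_span_singleton'.mp hw
    exact ⟨a, rfl⟩
  have hker : LinearMap.ker g = J := by
    ext a
    rw [LinearMap.mem_ker]
    show (Submodule.Quotient.mk (a • (⟨y, Ideal.mem_span_singleton_self y⟩ : Y)) : W) = 0 ↔ _
    rw [Submodule.Quotient.mk_eq_zero, Submodule.mem_comap]
    show a * y ∈ Ideal.span {y} * J ↔ _
    rw [Ideal.mem_span_singleton_mul]
    constructor
    · rintro ⟨j, hj, h⟩
      have : y * (a - j) = 0 := by rw [mul_sub, h]; ring
      have := sub_eq_zero.mp (hy _ this)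
      rwa [this]
    · intro ha
      exact ⟨a, ha, mul_comm _ _⟩
  have h := (LinearMap.quotKerEquivOfSurjective g hg).length_eq
  rw [hker] at h
  exact h.symm

/-- all ideals are generated by `N` elements if `A / (y)` has length at most `N` -/
theorem gens_of_nzd {y : A} (hym : y ∈ maximalIdeal A) (hy : ∀ z, y * z = 0 → z = 0) {t N : ℕ}
    (ht : maximalIdeal A ^ t ≤ Ideal.span {y}) (hN : Ln (Ideal.span {y}) ≤ N) (J : Ideal A) :
    ∃ b : Fin N → A, Ideal.span (Set.range b) = J := by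
  obtain ⟨k, hk⟩ := Ideal.exists_pow_inf_eq_pow_smul (Ideal.span {y}) J
  have hk1 := hk (k + 1) (Nat.le_succ k)
  -- `(y^(k+1)) ⊓ J ≤ 𝔪 J`
  have hAR : Ideal.span {y} ^ (k + 1) ⊓ J ≤ maximalIdeal A * J := by
    have h1 : Ideal.span {y} ^ (k + 1) • (⊤ : Ideal A) = Ideal.span {y} ^ (k + 1) := by
      rw [smul_eq_mul, Ideal.mul_top]
    rw [h1, Nat.add_sub_cancel_left, pow_one] at hk1
    rw [hk1, smul_eq_mul]
    exact Ideal.mul_mono ((Ideal.span_singleton_le_iff_mem _).mpr hym) inf_le_right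
  set Jn : Ideal A := J ⊔ Ideal.span {y} ^ (k + 1) with hJn
  have hfin : Ln Jn ≠ ⊤ := by
    have h1 : maximalIdeal A ^ (t * (k + 1)) ≤ Jn := by
      rw [pow_mul]
      exact (Ideal.pow_right_mono ht _).trans le_sup_right
    exact ne_top_of_le_ne_top (Ln_pow_ne_top _) (Ln_anti h1)
  have hν : Submodule.spanFinrank Jn ≤ N := by
    have h1 := Ln_mul_max Jn (IsNoetherian.noetherian _)
    have h2 := Ln_mul_span hy Jn
    have h3 : Ideal.span {y} * Jn ≤ maximalIdeal A * Jn :=
      Ideal.mul_mono_left ((Ideal.span_singleton_le_iff_mem _).mpr hym)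
    have h4 := Ln_anti h3
    rw [h1, h2, add_comm (Ln Jn)] at h4
    have h5 : (Submodule.spanFinrank Jn : ℕ∞) ≤ Ln (Ideal.span {y}) :=
      (ENat.add_le_add_iff_right hfin).mp h4
    exact_mod_cast h5.trans hN
  obtain ⟨b, hb⟩ := Pool.Agent.H16.BG.exists_fin_of_spanFinrank_le Jn (IsNoetherian.noetherian _)
    N hν
  have hbmem : ∀ i, b i ∈ Jn := fun i => by
    rw [← hb]
    exact Submodule.subset_span ⟨i, rfl⟩
  choose j hj w hw hjw using fun i => Submodule.mem_sup.mp (hbmem i)
  refine ⟨j, ?_⟩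
  have hle : Ideal.span (Set.range j) ≤ J := by
    rw [Ideal.span_le]
    rintro _ ⟨i, rfl⟩
    exact hj i
  apply le_antisymm hle
  apply Submodule.le_of_le_smul_of_le_jacobson_bot (IsNoetherian.noetherian J)
    (IsLocalRing.maximalIdeal_le_jacobson _)
  intro z hz
  have hz1 : z ∈ Submodule.span A (Set.range b) := by
    rw [hb]
    exact le_sup_left (a := J) hz
  obtain ⟨c, hc⟩ := (Submodule.mem_span_range_iff_exists_fun A).mp hz1
  have h1 : z = ∑ i, c i • j i + ∑ i, c i • w i := by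
    rw [← hc, ← Finset.sum_add_distrib]
    refine Finset.sum_congr rfl fun i _ => ?_
    rw [← smul_add, hjw]
  have h2 : ∑ i, c i • j i ∈ Ideal.span (Set.range j) :=
    Ideal.sum_mem _ fun i _ => Ideal.mul_mem_left _ _ (Ideal.subset_span ⟨i, rfl⟩)
  have h3 : ∑ i, c i • w i ∈ Ideal.span {y} ^ (k + 1) :=
    Ideal.sum_mem _ fun i _ => Ideal.mul_mem_left _ _ (hw i)
  have h4 : ∑ i, c i • w i ∈ J := by
    have : ∑ i, c i • w i = z - ∑ i, c i • j i := by rw [h1]; ring
    rw [this]
    exact Ideal.sub_mem _ hz (hle h2)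
  rw [h1]
  exact Ideal.add_mem _ (le_sup_left (a := Ideal.span (Set.range j)) h2)
    (le_sup_right (a := Ideal.span (Set.range j)) (hAR ⟨h3, h4⟩))

/-- Artinian case: proper ideals have fewer generators than the length -/
theorem gens_of_length {N : ℕ} (hN : Ln (⊥ : Ideal A) ≤ (N + 1 : ℕ)) (hN1 : 1 ≤ N) (J : Ideal A) :
    ∃ b : Fin N → A, Ideal.span (Set.range b) = J := by
  by_cases hJ : J = ⊤
  · subst hJ
    refine ⟨fun _ => 1, ?_⟩
    rw [Ideal.eq_top_iff_one]
    exact Ideal.subset_span ⟨⟨0, hN1⟩, rfl⟩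
  · apply Pool.Agent.H16.BG.exists_fin_of_spanFinrank_le J (IsNoetherian.noetherian _)
    have h1 := Ln_mul_max J (IsNoetherian.noetherian _)
    have h2 := (Ln_anti (bot_le : ⊥ ≤ maximalIdeal A * J)).trans hN
    rw [h1] at h2
    have h3 : 1 ≤ Ln J := by
      rw [ENat.one_le_iff_ne_zero]
      intro h0
      apply hJ
      unfold Ln at h0
      rw [Module.length_eq_zero_iff] at h0
      exact Ideal.Quotient.subsingleton_iff.mp h0
    have h4 := (add_le_add_right h3 (Submodule.spanFinrank J : ℕ∞)).trans h2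
    have h5 : Submodule.spanFinrank J + 1 ≤ N + 1 := by exact_mod_cast h4
    omega

end loc

end Pool.Agent.H19.Mult
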