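import Pool.Agent.H19.Mult.Gen

/-!
# MP_dca5ce_ag: the case of an infinite residue field
-/

namespace Pool.Agent.H19.Mult

open IsLocalRing Filter Topology
open Pool.Agent.H16

universe u

theorem pad {A : Type*} [CommRing A] {N N' : ℕ} (h : N ≤ N')
    (hN : ∀ J : Ideal A, ∃ b : Fin N → A, Ideal.span (Set.range b) = J) :
    ∀ J : Ideal A, ∃ b : Fin N' → A, Ideal.span (Set.range b) = J := by
  intro J
  obtain ⟨b, hb⟩ := hN J
  refine ⟨fun i => if h : (i : ℕ) < N then b ⟨i, h⟩ else 0, ?_⟩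
  rw [← hb]
  apply le_antisymm
  · rw [Ideal.span_le]
    rintro _ ⟨i, rfl⟩
    show (if h : (i : ℕ) < N then b ⟨i, h⟩ else 0) ∈ Ideal.span (Set.range b)
    split_ifs with hi
    · exact Ideal.subset_span ⟨_, rfl⟩
    · exact Ideal.zero_mem _
  · rw [Ideal.span_le]
    rintro _ ⟨i, rfl⟩
    refine Ideal.subset_span ⟨⟨i, by omega⟩, ?_⟩
    show (if h : (i : ℕ) < N then b ⟨i, h⟩ else 0) = b i
    rw [dif_pos i.2]

section

variable {R : Type u} [CommRing R] [IsDomain R] [IsLocalRing R] [IsNoetherianRing R]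

theorem of_gens {x : R} (hx : x ∈ maximalIdeal R) {N : ℕ}
    (hN : ∀ J : Ideal (R ⧸ Ideal.span {x}), ∃ b : Fin N → R ⧸ Ideal.span {x},
      Ideal.span (Set.range b) = J) {e : ℕ} (he : N + 1 ≤ e) : IsTestExponent R e := by
  intro M _ _ hfin _ hfree
  obtain ⟨e', rfl⟩ : ∃ e', e = e' + 1 := ⟨e - 1, by omega⟩
  exact TP.main x hx e' (pad (by omega) hN) M hfree

omit [IsDomain R] [IsNoetherianRing R] in
theorem ne_top_of_mem {x : R} (hx : x ∈ maximalIdeal R) : Ideal.span {x} ≠ ⊤ := by
  intro h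
  have h1 : (1 : R) ∈ Ideal.span {x} := by rw [h]; trivial
  have h2 : (1 : R) ∈ maximalIdeal R := (Ideal.span_singleton_le_iff_mem _).mpr hx h1
  exact (mem_maximalIdeal _).1 h2 isUnit_one

variable {h : ℕ → ℕ} {μ : ℕ}

omit [IsDomain R] in
theorem Ln_pow_le (hh : ∀ i, Submodule.spanFinrank (maximalIdeal R ^ i) ≤ h i) (n : ℕ) :
    Ln (maximalIdeal R ^ n) ≤ ((∑ i ∈ Finset.range n, h i : ℕ) : ℕ∞) := by
  rw [Ln_pow]
  exact_mod_cast Finset.sum_le_sum fun i _ => hh i

omit [IsDomain R] in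
theorem red_of_lim [Infinite (ResidueField R)]
    (hh : ∀ i, Submodule.spanFinrank (maximalIdeal R ^ i) ≤ h i) {d : ℕ}
    (hH : Tendsto (fun n : ℕ => (d.factorial : ℝ) * ((∑ i ∈ Finset.range n, h i : ℕ) : ℝ) /
      (n : ℝ) ^ d) atTop (𝓝 (μ : ℝ))) : Red R d := by
  apply red_exists
  intro s
  obtain ⟨n, hn, hlt⟩ := growth hH s
  exact ⟨n, hn, (Finset.sum_le_sum fun i _ => hh i).trans_lt hlt⟩

/-- dimension two -/
theorem inf_two [Infinite (ResidueField R)] {a b : R} (ha : a ≠ 0) (ham : a ∈ maximalIdeal R)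
    (hbm : b ∈ maximalIdeal R) (hb : ∀ z, b * z ∈ Ideal.span {a} → z ∈ Ideal.span {a})
    (hh : ∀ i, Submodule.spanFinrank (maximalIdeal R ^ i) ≤ h i)
    (hH : Tendsto (fun n : ℕ => (Nat.factorial 2 : ℝ) * ((∑ i ∈ Finset.range n, h i : ℕ) : ℝ) /
      (n : ℝ) ^ 2) atTop (𝓝 (μ : ℝ))) {e : ℕ} (he : μ + 1 ≤ e) : IsTestExponent R e := by
  obtain ⟨f, hf, s, hs, hI⟩ := red_of_lim hh hH
  -- a pair of parameters with first member nonzero
  obtain ⟨x, y, hx, hxm, hym, hxy⟩ : ∃ x y : R, x ≠ 0 ∧ x ∈ maximalIdeal R ∧ y ∈ maximalIdeal R ∧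
      Ideal.span (Set.range f) = Ideal.span {x, y} := by
    have hr : Set.range f = {f 0, f 1} := by
      ext z
      constructor
      · rintro ⟨i, rfl⟩
        fin_cases i <;> simp
      · rintro (rfl | rfl)
        · exact ⟨0, rfl⟩
        · exact ⟨1, rfl⟩
    by_cases h0 : f 0 = 0
    · by_cases h1 : f 1 = 0
      · exfalso
        have h2 : Ideal.span (Set.range f) = ⊥ := by
          rw [hr, h0, h1]
          simp
        rw [h2, Ideal.bot_mul] at hI
        have h3 := pow_eq_zero_iff (M₀ := Ideal R) (Nat.succ_ne_zero s) |>.mp hI.symm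
        rw [h3] at ham
        exact ha ham
      · exact ⟨f 1, f 0, h1, hf 1, hf 0, by rw [hr, Set.pair_comm]⟩
    · exact ⟨f 0, f 1, h0, hf 0, hf 1, by rw [hr]⟩
  rw [hxy] at hI
  have hprim : maximalIdeal R ^ (s + 1) ≤ Ideal.span {x, y} := by
    rw [← hI]
    exact Ideal.mul_le_left
  have hreg := regular_of_primary ha ham hbm hb hx hprim
  -- length of `R / (x, y)`
  have hLtop : Ln (Ideal.span {x, y}) ≠ ⊤ :=
    ne_top_of_le_ne_top (Ln_pow_ne_top _) (Ln_anti hprim)
  obtain ⟨L, hL⟩ := ENat.ne_top_iff_exists.mp hLtop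
  have hLμ : L ≤ μ := by
    refine bound (H := fun n => ∑ i ∈ Finset.range n, h i) hH (s := s) fun n => ?_
    have h1 := Ln_pair_pow hx hreg n
    have h2 : maximalIdeal R ^ (n + s) ≤ Ideal.span {x, y} ^ n := by
      rw [← red_pow hI n]
      exact Ideal.mul_le_left
    have h3 := h1.trans ((Ln_anti h2).trans (Ln_pow_le hh (n + s)))
    rw [← hL] at h3
    have h4 : (n + 1).choose 2 * L ≤ ∑ i ∈ Finset.range (n + s), h i := by exact_mod_cast h3
    have h5 : n ^ 2 ≤ 2 * (n + 1).choose 2 := by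
      have h6 : 2 * ((n + 1) * n / 2) = (n + 1) * n :=
        Nat.mul_div_cancel' (by rw [mul_comm]; exact (Nat.even_mul_succ_self n).two_dvd)
      rw [Nat.choose_two_right, Nat.add_sub_cancel, h6]
      nlinarith
    calc n ^ 2 * L ≤ 2 * (n + 1).choose 2 * L := Nat.mul_le_mul_right _ h5
      _ = 2 * ((n + 1).choose 2 * L) := by ring
      _ ≤ 2 * ∑ i ∈ Finset.range (n + s), h i := Nat.mul_le_mul_left _ h4
      _ = Nat.factorial 2 * ∑ i ∈ Finset.range (n + s), h i := by rfl
  -- the quotient `R / (x)`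
  have hxtop := ne_top_of_mem hxm
  have : Nontrivial (R ⧸ Ideal.span {x}) := Ideal.Quotient.nontrivial_iff.2 hxtop
  have : IsLocalRing (R ⧸ Ideal.span {x}) :=
    IsLocalRing.of_surjective' (Ideal.Quotient.mk _) Ideal.Quotient.mk_surjective
  have hmax : maximalIdeal (R ⧸ Ideal.span {x}) =
      (maximalIdeal R).map (Ideal.Quotient.mk (Ideal.span {x})) :=
    (map_maximalIdeal_of_surjective _ Ideal.Quotient.mk_surjective).symm
  refine of_gens hxm (gens_of_nzd (y := Ideal.Quotient.mk _ y) (t := s + 1) ?_ ?_ ?_ ?_) he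
  · rw [hmax]
    exact Ideal.mem_map_of_mem _ hym
  · intro z hz
    obtain ⟨z, rfl⟩ := Ideal.Quotient.mk_surjective z
    rw [← map_mul, Ideal.Quotient.eq_zero_iff_mem] at hz
    exact Ideal.Quotient.eq_zero_iff_mem.mpr (hreg z hz)
  · rw [hmax, ← Ideal.map_pow]
    refine (Ideal.map_mono hprim).trans ?_
    rw [Ideal.map_span, Set.image_pair, Ideal.span_le]
    rintro z (rfl | rfl)
    · have : Ideal.Quotient.mk (Ideal.span {x}) x = 0 :=
        Ideal.Quotient.eq_zero_iff_mem.mpr (Ideal.mem_span_singleton_self x)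
      rw [this]
      exact Ideal.zero_mem _
    · exact Ideal.mem_span_singleton_self _
  · rw [Ln_comap (R := R) Ideal.Quotient.mk_surjective]
    have h1 : Ideal.span {x, y} ≤ (Ideal.span {Ideal.Quotient.mk (Ideal.span {x}) y}).comap
        (algebraMap R (R ⧸ Ideal.span {x})) := by
      rw [Ideal.span_le]
      rintro z (rfl | rfl)
      · rw [SetLike.mem_coe, Ideal.mem_comap]
        have : algebraMap R (R ⧸ Ideal.span {z}) z = 0 :=
          Ideal.Quotient.eq_zero_iff_mem.mpr (Ideal.mem_span_singleton_self z)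
        rw [this]
        exact Ideal.zero_mem _
      · exact Ideal.mem_span_singleton_self _
    refine (Ln_anti h1).trans ?_
    rw [← hL]
    exact_mod_cast hLμ

/-- dimension one -/
theorem inf_one [Infinite (ResidueField R)] {a : R} (ha : a ≠ 0) (ham : a ∈ maximalIdeal R)
    (hh : ∀ i, Submodule.spanFinrank (maximalIdeal R ^ i) ≤ h i)
    (hH : Tendsto (fun n : ℕ => (Nat.factorial 1 : ℝ) * ((∑ i ∈ Finset.range n, h i : ℕ) : ℝ) /
      (n : ℝ) ^ 1) atTop (𝓝 (μ : ℝ))) {e : ℕ} (he : μ ≤ e) : IsTestExponent R e := by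
  obtain ⟨f, hf, s, hs, hI⟩ := red_of_lim hh hH
  set x := f 0 with hxdef
  have hr : Set.range f = {x} := by
    ext z
    constructor
    · rintro ⟨i, rfl⟩
      fin_cases i; simp [hxdef]
    · rintro rfl
      exact ⟨0, rfl⟩
  rw [hr] at hI
  have hxm : x ∈ maximalIdeal R := hf 0
  have hx : x ≠ 0 := by
    intro h0
    have h2 : Ideal.span {x} = ⊥ := by rw [h0]; simp
    rw [h2, Ideal.bot_mul] at hI
    have h3 := pow_eq_zero_iff (M₀ := Ideal R) (Nat.succ_ne_zero s) |>.mp hI.symm
    rw [h3] at ham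
    exact ha ham
  have hprim : maximalIdeal R ^ (s + 1) ≤ Ideal.span {x} := by
    rw [← hI]
    exact Ideal.mul_le_left
  have hLtop : Ln (Ideal.span {x}) ≠ ⊤ :=
    ne_top_of_le_ne_top (Ln_pow_ne_top _) (Ln_anti hprim)
  obtain ⟨L, hL⟩ := ENat.ne_top_iff_exists.mp hLtop
  have hLμ : L ≤ μ := by
    refine bound (H := fun n => ∑ i ∈ Finset.range n, h i) hH (s := s) fun n => ?_
    have h1 := Ln_single_pow hx n
    have h2 : maximalIdeal R ^ (n + s) ≤ Ideal.span {x} ^ n := by
      rw [← red_pow hI n]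
      exact Ideal.mul_le_left
    have h3 := h1.trans ((Ln_anti h2).trans (Ln_pow_le hh (n + s)))
    rw [← hL] at h3
    have h4 : n * L ≤ ∑ i ∈ Finset.range (n + s), h i := by exact_mod_cast h3
    simpa using h4
  have hxtop := ne_top_of_mem hxm
  have : Nontrivial (R ⧸ Ideal.span {x}) := Ideal.Quotient.nontrivial_iff.2 hxtop
  have : IsLocalRing (R ⧸ Ideal.span {x}) :=
    IsLocalRing.of_surjective' (Ideal.Quotient.mk _) Ideal.Quotient.mk_surjective
  rcases le_or_gt 2 L with hL2 | hL2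
  · -- all ideals of `R / (x)` are generated by `L - 1` elements
    have h0 : Ln (⊥ : Ideal (R ⧸ Ideal.span {x})) = L := by
      rw [Ln_comap (R := R) Ideal.Quotient.mk_surjective, hL]
      congr 1
      exact Ideal.mk_ker
    refine of_gens hxm (N := L - 1) (gens_of_length (N := L - 1) ?_ (by omega)) (by omega)
    rw [h0]
    have : L - 1 + 1 = L := by omega
    rw [this]
  · -- the maximal ideal is principal
    have hle : maximalIdeal R ≤ Ideal.span {x} := by
      have h1 := Ln_add ((Ideal.span_singleton_le_iff_mem (maximalIdeal R)).mpr hxm)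
      have h2 : 1 ≤ Ln (maximalIdeal R) := by
        rw [Order.one_le_iff_ne_zero]
        intro h0
        unfold Ln at h0
        rw [Module.length_eq_zero_iff] at h0
        exact (maximalIdeal.isMaximal R).ne_top (Ideal.Quotient.subsingleton_iff.mp h0)
      have h3 : Module.length R (maximalIdeal R ⧸ (Submodule.comap (maximalIdeal R).subtype
          (Ideal.span {x}))) = 0 := by
        have h4 : Ln (Ideal.span {x}) ≤ 1 := by
          rw [← hL]
          exact_mod_cast (by omega : L ≤ 1)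
        rw [h1] at h4
        by_contra hne
        have h5 := Order.one_le_iff_ne_zero.mpr hne
        have h6 := (add_le_add h5 h2).trans h4
        norm_num at h6
      rw [Module.length_eq_zero_iff] at h3
      intro z hz
      have h7 : (Submodule.Quotient.mk ⟨z, hz⟩ : maximalIdeal R ⧸ (Submodule.comap
          (maximalIdeal R).subtype (Ideal.span {x}))) = 0 := Subsingleton.elim _ _
      rw [Submodule.Quotient.mk_eq_zero] at h7
      exact h7
    have hprinc : (maximalIdeal R).IsPrincipal := by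
      have : maximalIdeal R = Ideal.span {x} :=
        le_antisymm hle ((Ideal.span_singleton_le_iff_mem _).mpr hxm)
      exact ⟨⟨x, this⟩⟩
    have hpid : IsPrincipalIdealRing R :=
      ((tfae_of_isNoetherianRing_of_isLocalRing_of_isDomain R).out 4 0).mp hprinc
    intro M _ _ hfin htor hfree
    exfalso
    apply hfree
    have : Module.IsTorsionFree R M := Submodule.isTorsionFree_iff_torsion_eq_bot.mpr htor
    infer_instance

end

end Pool.Agent.H19.Mult
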