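import Mathlib

/-!
# MP_dca5ce_ag: lengths of quotients by ideals of a local ring
-/

namespace Pool.Agent.H19.Mult

open IsLocalRing

universe u

section general

variable {A : Type u} [CommRing A]

/-- the length of `A / J` -/
noncomputable def Ln (J : Ideal A) : ℕ∞ := Module.length A (A ⧸ J)

theorem Ln_anti {I J : Ideal A} (h : I ≤ J) : Ln J ≤ Ln I :=
  Module.length_le_of_surjective (Submodule.factor h) (Submodule.factor_surjective h)

theorem Ln_top : Ln (⊤ : Ideal A) = 0 := by
  unfold Ln
  have : Subsingleton (A ⧸ (⊤ : Ideal A)) := Ideal.Quotient.subsingleton_iff.mpr rfl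
  exact Module.length_eq_zero

theorem Ln_add {I J : Ideal A} (h : I ≤ J) :
    Ln I = Module.length A (J ⧸ (Submodule.comap J.subtype I)) + Ln J := by
  unfold Ln
  let f : (J ⧸ (Submodule.comap J.subtype I)) →ₗ[A] (A ⧸ I) := Submodule.mapQ _ _ J.subtype le_rfl
  have hfinj : Function.Injective f := by
    rw [← LinearMap.ker_eq_bot, LinearMap.ker_eq_bot']
    intro z hz
    obtain ⟨⟨j, hj⟩, rfl⟩ := Submodule.mkQ_surjective _ z
    have h1 : j ∈ I := by
      have : (Submodule.Quotient.mk j : A ⧸ I) = 0 := hz
      rwa [Submodule.Quotient.mk_eq_zero] at this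
    rw [Submodule.mkQ_apply, Submodule.Quotient.mk_eq_zero]
    exact h1
  have hex : Function.Exact f (Submodule.factor h) := by
    intro z
    obtain ⟨d, rfl⟩ := Submodule.mkQ_surjective _ z
    constructor
    · intro h'
      have h1 : d ∈ J := by
        have : (Submodule.Quotient.mk d : A ⧸ J) = 0 := h'
        rwa [Submodule.Quotient.mk_eq_zero] at this
      exact ⟨Submodule.Quotient.mk ⟨d, h1⟩, rfl⟩
    · rintro ⟨w, hw⟩
      obtain ⟨⟨j, hj⟩, rfl⟩ := Submodule.mkQ_surjective _ w
      rw [← hw]
      show (Submodule.Quotient.mk j : A ⧸ J) = 0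
      rwa [Submodule.Quotient.mk_eq_zero]
  exact Module.length_eq_add_of_exact f (Submodule.factor h) hfinj
    (Submodule.factor_surjective h) hex

theorem comap_subtype_mul (I J : Ideal A) :
    Submodule.comap J.subtype (I * J) = I • (⊤ : Submodule A J) := by
  have h : Submodule.map J.subtype (I • (⊤ : Submodule A J)) = I * J := by
    rw [Submodule.map_smul'', Submodule.map_subtype_top]
    rfl
  rw [← h, Submodule.comap_map_eq_of_injective (Submodule.subtype_injective J)]

end general

section loc

variable {A : Type u} [CommRing A] [IsLocalRing A]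

theorem length_quot_max (J : Ideal A) (hJ : J.FG) :
    Module.length A (J ⧸ (maximalIdeal A • (⊤ : Submodule A J))) =
      (Submodule.spanFinrank J : ℕ∞) := by
  have : Module.Finite A J := Module.Finite.iff_fg.2 hJ
  rw [IsLocalRing.spanFinrank_eq_finrank_quotient J hJ]
  have h2 : Module.length A (J ⧸ (maximalIdeal A • (⊤ : Submodule A J))) =
      Module.length (A ⧸ maximalIdeal A) (J ⧸ (maximalIdeal A • (⊤ : Submodule A J))) :=
    Module.length_eq_of_surjective (S := A) (R := A ⧸ maximalIdeal A)
      (M := J ⧸ (maximalIdeal A • (⊤ : Submodule A J))) (Ideal.Quotient.mk_surjective)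
  rw [h2]
  let _ : Field (A ⧸ maximalIdeal A) := Ideal.Quotient.field _
  exact Module.length_eq_finrank (A ⧸ maximalIdeal A)
    (J ⧸ (maximalIdeal A • (⊤ : Submodule A J)))

theorem Ln_mul_max (J : Ideal A) (hJ : J.FG) :
    Ln (maximalIdeal A * J) = (Submodule.spanFinrank J : ℕ∞) + Ln J := by
  rw [Ln_add (Ideal.mul_le_right : maximalIdeal A * J ≤ J), comap_subtype_mul,
    length_quot_max J hJ]

theorem Ln_pow [IsNoetherianRing A] (n : ℕ) : Ln (maximalIdeal A ^ n) =
    ((∑ i ∈ Finset.range n, Submodule.spanFinrank (maximalIdeal A ^ i) : ℕ) : ℕ∞) := by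
  induction n with
  | zero => simp [Ln_top]
  | succ n ih =>
    rw [pow_succ', Ln_mul_max _ (IsNoetherian.noetherian _), ih, Finset.sum_range_succ]
    push_cast
    rw [add_comm]

/-- more elements than generators: a relation modulo `𝔪 J` with a unit coefficient -/
theorem lin_dep [IsNoetherianRing A] (J : Ideal A) {ι : Type*} [Fintype ι] (v : ι → A)
    (hv : ∀ i, v i ∈ J) (hcard : Submodule.spanFinrank J < Fintype.card ι) :
    ∃ c : ι → A, ∑ i, c i * v i ∈ maximalIdeal A * J ∧ ∃ i, c i ∉ maximalIdeal A := by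
  have hJ : J.FG := IsNoetherian.noetherian _
  have : Module.Finite A J := Module.Finite.iff_fg.2 hJ
  let V := J ⧸ (maximalIdeal A • (⊤ : Submodule A J))
  let _ : Field (A ⧸ maximalIdeal A) := Ideal.Quotient.field _
  have hfr : Module.finrank (A ⧸ maximalIdeal A) V = Submodule.spanFinrank J :=
    (IsLocalRing.spanFinrank_eq_finrank_quotient J hJ).symm
  have hfin : Module.Finite (A ⧸ maximalIdeal A) V := inferInstance
  let w : ι → V := fun i => Submodule.Quotient.mk ⟨v i, hv i⟩
  have hnot : ¬ LinearIndependent (A ⧸ maximalIdeal A) w := by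
    intro hli
    have := hli.fintype_card_le_finrank
    omega
  rw [Fintype.not_linearIndependent_iff] at hnot
  obtain ⟨g, hg, i₀, hi₀⟩ := hnot
  choose c hc using fun i => Ideal.Quotient.mk_surjective (g i)
  refine ⟨c, ?_, i₀, ?_⟩
  · have h1 : (Submodule.Quotient.mk (∑ i, c i • (⟨v i, hv i⟩ : J)) : V) = 0 := by
      rw [← hg]
      have : (Submodule.Quotient.mk (∑ i, c i • (⟨v i, hv i⟩ : J)) : V) =
          ∑ i, c i • w i := by
        rw [← Submodule.mkQ_apply, map_sum]
        refine Finset.sum_congr rfl fun i _ => ?_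
        rw [map_smul]
        rfl
      rw [this]
      refine Finset.sum_congr rfl fun i _ => ?_
      rw [← hc i]
      rfl
    rw [Submodule.Quotient.mk_eq_zero, ← comap_subtype_mul] at h1
    have h2 := Submodule.mem_comap.mp h1
    rw [map_sum] at h2
    exact h2
  · intro hmem
    apply hi₀
    rw [← hc i₀]
    exact Ideal.Quotient.eq_zero_iff_mem.mpr hmem

end loc

end Pool.Agent.H19.Mult
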