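import Pool.Agent.H19.Mult.Len

/-!
# MP_dca5ce_ag: reductions of the maximal ideal with few generators
-/

namespace Pool.Agent.H19.Mult

open IsLocalRing Filter Topology

universe u

section point

/-- the product of variables over a multiset is a monomial -/
theorem prod_X {σ k : Type*} [DecidableEq σ] [CommSemiring k] (m : Multiset σ) :
    (m.map (MvPolynomial.X : σ → MvPolynomial σ k)).prod =
      MvPolynomial.monomial (Multiset.toFinsupp m) 1 := by
  induction m using Multiset.induction_on with
  | empty => simp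
  | cons i m ih =>
    rw [Multiset.map_cons, Multiset.prod_cons, ih, ← Multiset.singleton_add, Multiset.toFinsupp_add,
      Multiset.toFinsupp_singleton, MvPolynomial.X, MvPolynomial.monomial_mul, one_mul]

/-- a homogeneous form with a nonzero coefficient over an infinite field does not vanish
identically -/
theorem exists_point {k : Type*} [Field k] [Infinite k] {r n : ℕ} (c : Sym (Fin r) n → k)
    (hc : ∃ σ, c σ ≠ 0) :
    ∃ x : Fin r → k, ∑ σ, c σ * ((σ : Multiset (Fin r)).map x).prod ≠ 0 := by
  classical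
  by_contra hcon
  push Not at hcon
  let p : MvPolynomial (Fin r) k :=
    ∑ σ, MvPolynomial.C (c σ) * ((σ : Multiset (Fin r)).map MvPolynomial.X).prod
  have hp : p = 0 := by
    apply MvPolynomial.funext
    intro x
    rw [map_zero, map_sum, ← hcon x]
    refine Finset.sum_congr rfl fun σ _ => ?_
    rw [map_mul, MvPolynomial.eval_C, map_multiset_prod, Multiset.map_map]
    congr 2
    refine Multiset.map_congr rfl fun i _ => ?_
    simp
  obtain ⟨σ₀, hσ₀⟩ := hc
  apply hσ₀
  have h1 : MvPolynomial.coeff (Multiset.toFinsupp (σ₀ : Multiset (Fin r))) p = c σ₀ := by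
    show MvPolynomial.coeff (Multiset.toFinsupp (σ₀ : Multiset (Fin r)))
      (∑ σ, MvPolynomial.C (c σ) * ((σ : Multiset (Fin r)).map MvPolynomial.X).prod) = c σ₀
    rw [MvPolynomial.coeff_sum, Finset.sum_eq_single σ₀]
    · rw [prod_X, MvPolynomial.coeff_C_mul, MvPolynomial.coeff_monomial, if_pos rfl, mul_one]
    · intro σ _ hne
      rw [prod_X, MvPolynomial.coeff_C_mul, MvPolynomial.coeff_monomial, if_neg, mul_zero]
      intro h
      exact hne (Subtype.ext (Multiset.toFinsupp.injective h))
    · intro h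
      exact absurd (Finset.mem_univ _) h
  rw [← h1, hp, MvPolynomial.coeff_zero]

end point

section red

variable {A : Type u} [CommRing A]

theorem prod_mem_pow (I : Ideal A) {ι : Type*} (f : ι → A) (hf : ∀ i, f i ∈ I) (m : Multiset ι) :
    (m.map f).prod ∈ I ^ Multiset.card m := by
  induction m using Multiset.induction_on with
  | empty => simp
  | cons i m ih =>
    rw [Multiset.map_cons, Multiset.prod_cons, Multiset.card_cons, pow_succ']
    exact Ideal.mul_mem_mul (hf i) ih

theorem mul_pow_pred_le (I : Ideal A) (c : ℕ) : I * I ^ (c - 1) ≤ I ^ c := by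
  cases c with
  | zero => simp
  | succ c => rw [Nat.add_sub_cancel, ← pow_succ']

/-- `∏ f i ≡ ∏ b i · z ^ card` modulo `I' I ^ (card - 1)` if `f i ≡ b i z` modulo `I'` -/
theorem prod_congr_mod (I I' : Ideal A) (z : A) (hz : z ∈ I) {ι : Type*} (f b : ι → A)
    (hf : ∀ i, f i ∈ I) (hfb : ∀ i, f i - b i * z ∈ I') (m : Multiset ι) :
    (m.map f).prod - (m.map b).prod * z ^ Multiset.card m ∈ I' * I ^ (Multiset.card m - 1) := by
  induction m using Multiset.induction_on with
  | empty => simp
  | cons i m ih =>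
    rw [Multiset.map_cons, Multiset.prod_cons, Multiset.map_cons, Multiset.prod_cons,
      Multiset.card_cons, Nat.add_sub_cancel]
    have h1 : f i * (m.map f).prod - b i * (m.map b).prod * z ^ (Multiset.card m + 1) =
        (f i - b i * z) * (m.map f).prod +
          b i * (z * ((m.map f).prod - (m.map b).prod * z ^ Multiset.card m)) := by
      rw [pow_succ]; ring
    rw [h1]
    refine Ideal.add_mem _ (Ideal.mul_mem_mul (hfb i) (prod_mem_pow I f hf m))
      (Ideal.mul_mem_left _ _ ?_)
    have h2 : z * ((m.map f).prod - (m.map b).prod * z ^ Multiset.card m) ∈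
        I * (I' * I ^ (Multiset.card m - 1)) := Ideal.mul_mem_mul hz ih
    have h3 : I * (I' * I ^ (Multiset.card m - 1)) ≤ I' * I ^ Multiset.card m := by
      calc I * (I' * I ^ (Multiset.card m - 1)) = I' * (I * I ^ (Multiset.card m - 1)) := by
            rw [mul_left_comm]
        _ ≤ I' * I ^ Multiset.card m := Ideal.mul_mono_right (mul_pow_pred_le I _)
    exact h3 h2

theorem pow_le_sup (I I' K : Ideal A) (hI : I ≤ I' ⊔ K) (hK : K ≤ I) (n : ℕ) :
    I ^ n ≤ I' * I ^ (n - 1) ⊔ K ^ n := by
  induction n with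
  | zero => simp
  | succ n ih =>
    rw [Nat.add_sub_cancel]
    calc I ^ (n + 1) = I * I ^ n := pow_succ' _ _
      _ ≤ (I' ⊔ K) * I ^ n := Ideal.mul_mono_left hI
      _ = I' * I ^ n ⊔ K * I ^ n := Ideal.sup_mul _ _ _
      _ ≤ I' * I ^ n ⊔ K ^ (n + 1) := by
        apply sup_le le_sup_left
        calc K * I ^ n ≤ K * (I' * I ^ (n - 1) ⊔ K ^ n) := Ideal.mul_mono_right ih
          _ = K * (I' * I ^ (n - 1)) ⊔ K * K ^ n := Ideal.mul_sup _ _ _
          _ ≤ I' * I ^ n ⊔ K ^ (n + 1) := by
            apply sup_le_sup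
            · calc K * (I' * I ^ (n - 1)) ≤ I * (I' * I ^ (n - 1)) := Ideal.mul_mono_left hK
                _ = I' * (I * I ^ (n - 1)) := by rw [mul_left_comm]
                _ ≤ I' * I ^ n := Ideal.mul_mono_right (mul_pow_pred_le I _)
            · rw [← pow_succ']

variable [IsLocalRing A]

/-- `𝔪` has a reduction generated by `r` elements -/
def Red (A : Type u) [CommRing A] [IsLocalRing A] (r : ℕ) : Prop :=
  ∃ f : Fin r → A, (∀ i, f i ∈ maximalIdeal A) ∧ ∃ s : ℕ, 1 ≤ s ∧
    Ideal.span (Set.range f) * maximalIdeal A ^ s = maximalIdeal A ^ (s + 1)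

theorem red_pow {I : Ideal A} {s : ℕ}
    (h : I * maximalIdeal A ^ s = maximalIdeal A ^ (s + 1)) (n : ℕ) :
    I ^ n * maximalIdeal A ^ s = maximalIdeal A ^ (n + s) := by
  induction n with
  | zero => simp
  | succ n ih =>
    rw [pow_succ', mul_assoc, ih]
    calc I * maximalIdeal A ^ (n + s) = (I * maximalIdeal A ^ s) * maximalIdeal A ^ n := by
          rw [add_comm, pow_add, mul_assoc]
      _ = maximalIdeal A ^ (n + 1 + s) := by
          rw [h, ← pow_add]
          congr 1
          omega

theorem Red.pad {r : ℕ} (h : Red A r) : Red A (r + 1) := by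
  obtain ⟨f, hf, s, hs, hI⟩ := h
  refine ⟨Fin.cons 0 f, ?_, s, hs, ?_⟩
  · intro i
    refine Fin.cases ?_ (fun j => ?_) i
    · simp
    · simpa using hf j
  · rw [← hI]
    congr 1
    rw [Fin.range_cons, Ideal.span_insert]
    simp

theorem red_init [IsNoetherianRing A] : ∃ r, Red A r := by
  obtain ⟨s, hs⟩ := (IsNoetherian.noetherian (maximalIdeal A) : (maximalIdeal A).FG)
  let e := s.equivFin
  refine ⟨s.card, fun i => (e.symm i : A), fun i => ?_, 1, le_rfl, ?_⟩
  · have : (e.symm i : A) ∈ Ideal.span (s : Set A) := Ideal.subset_span (e.symm i).2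
    rwa [show Ideal.span (s : Set A) = maximalIdeal A from hs] at this
  · have h1 : Set.range (fun i => (e.symm i : A)) = (s : Set A) := by
      ext z
      constructor
      · rintro ⟨i, rfl⟩
        exact (e.symm i).2
      · intro hz
        exact ⟨e ⟨z, hz⟩, by simp⟩
    rw [h1, show Ideal.span (s : Set A) = maximalIdeal A from hs, pow_one, pow_two]

omit [IsLocalRing A] in
theorem prod_smul_multiset {ι : Type*} (u : A) (a : ι → A) (m : Multiset ι) :
    (m.map (fun i => u * a i)).prod = u ^ Multiset.card m * (m.map a).prod := by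
  induction m using Multiset.induction_on with
  | empty => simp
  | cons i m ih =>
    rw [Multiset.map_cons, Multiset.prod_cons, ih, Multiset.map_cons, Multiset.prod_cons,
      Multiset.card_cons, pow_succ]
    ring

theorem red_step [IsNoetherianRing A] [Infinite (ResidueField A)] {d r : ℕ} (hr : d ≤ r)
    (hG : ∀ s : ℕ, ∃ n : ℕ, 1 ≤ n ∧
      ∑ i ∈ Finset.Ico n (n + s), Submodule.spanFinrank (maximalIdeal A ^ i) < (n + d).choose d)
    (h : Red A (r + 1)) : Red A r := by
  classical
  obtain ⟨f, hf, s, hs, hI⟩ := h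
  have hcd : ∀ (n : ℕ) (σ : Sym (Fin (r + 1)) n),
      Multiset.card (σ : Multiset (Fin (r + 1))) = n := fun n σ => σ.2
  set I : Ideal A := Ideal.span (Set.range f) with hIdef
  have hfI : ∀ i, f i ∈ I := fun i => Ideal.subset_span ⟨i, rfl⟩
  have hIm : I ≤ maximalIdeal A := by
    rw [hIdef, Ideal.span_le]
    rintro _ ⟨i, rfl⟩
    exact hf i
  obtain ⟨n, hn, hlt⟩ := hG s
  -- number of generators of `I ^ n`
  have hν : Submodule.spanFinrank (I ^ n) ≤
      ∑ i ∈ Finset.Ico n (n + s), Submodule.spanFinrank (maximalIdeal A ^ i) := by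
    have h1 := Ln_mul_max (I ^ n) (IsNoetherian.noetherian _)
    have h2 : maximalIdeal A ^ (n + s) ≤ maximalIdeal A * I ^ n := by
      rw [← red_pow hI n, mul_comm]
      exact Ideal.mul_mono_left (Ideal.pow_le_self (by omega))
    have h3 := Ln_anti h2
    have h4 : Ln (maximalIdeal A ^ n) ≤ Ln (I ^ n) := Ln_anti (Ideal.pow_right_mono hIm n)
    rw [h1] at h3
    have h5 := (add_le_add_right h4 (Submodule.spanFinrank (I ^ n) : ℕ∞)).trans h3
    rw [Ln_pow, Ln_pow] at h5
    have h6 : Submodule.spanFinrank (I ^ n) +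
        ∑ i ∈ Finset.range n, Submodule.spanFinrank (maximalIdeal A ^ i) ≤
        ∑ i ∈ Finset.range (n + s), Submodule.spanFinrank (maximalIdeal A ^ i) := by
      exact_mod_cast h5
    rw [← Finset.sum_range_add_sum_Ico _ (Nat.le_add_right n s)] at h6
    omega
  -- more monomials than generators
  have hcard : Submodule.spanFinrank (I ^ n) < Fintype.card (Sym (Fin (r + 1)) n) := by
    rw [Sym.card_sym_fin_eq_multichoose, Nat.multichoose_eq]
    have h1 : (n + d).choose d ≤ (r + 1 + n - 1).choose n := by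
      have h2 : (n + d).choose d = (n + d).choose n := by
        rw [← Nat.choose_symm_add]
      rw [h2]
      exact Nat.choose_le_choose n (by omega)
    omega
  obtain ⟨c, hc, σ₀, hσ₀⟩ := lin_dep (I ^ n)
    (fun σ : Sym (Fin (r + 1)) n => ((σ : Multiset (Fin (r + 1))).map f).prod)
    (fun σ => by
      have := prod_mem_pow I f hfI (σ : Multiset (Fin (r + 1)))
      rwa [hcd] at this) hcard
  -- a point where the form does not vanish
  obtain ⟨x, hx⟩ := exists_point (fun σ => residue A (c σ)) ⟨σ₀, fun h =>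
    hσ₀ ((residue_eq_zero_iff _).mp h)⟩
  choose a ha using fun i => residue_surjective (x i)
  have hval : ∑ σ : Sym (Fin (r + 1)) n, c σ * ((σ : Multiset (Fin (r + 1))).map a).prod ∉
      maximalIdeal A := by
    intro hmem
    apply hx
    rw [← residue_eq_zero_iff, map_sum] at hmem
    rw [← hmem]
    refine Finset.sum_congr rfl fun σ _ => ?_
    rw [map_mul, map_multiset_prod, Multiset.map_map]
    congr 2
    refine Multiset.map_congr rfl fun i _ => ?_
    exact (ha i).symm
  obtain ⟨j, hj⟩ : ∃ j, a j ∉ maximalIdeal A := by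
    by_contra hcon
    push Not at hcon
    apply hval
    refine Ideal.sum_mem _ fun σ _ => Ideal.mul_mem_left _ _ ?_
    have h1 := prod_mem_pow (maximalIdeal A) a hcon (σ : Multiset (Fin (r + 1)))
    rw [hcd] at h1
    exact Ideal.pow_le_self (by omega) h1
  have huj : IsUnit (a j) := by
    by_contra hnu
    exact hj ((mem_maximalIdeal _).mpr hnu)
  obtain ⟨u, hu⟩ := huj
  let b : Fin (r + 1) → A := fun i => (↑u⁻¹ : A) * a i
  have hbj : b j = 1 := by
    show (↑u⁻¹ : A) * a j = 1
    rw [← hu]; simp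
  have hvalb : IsUnit (∑ σ : Sym (Fin (r + 1)) n,
      c σ * ((σ : Multiset (Fin (r + 1))).map b).prod) := by
    have h1 : ∑ σ : Sym (Fin (r + 1)) n, c σ * ((σ : Multiset (Fin (r + 1))).map b).prod =
        (↑u⁻¹ : A) ^ n *
          ∑ σ : Sym (Fin (r + 1)) n, c σ * ((σ : Multiset (Fin (r + 1))).map a).prod := by
      rw [Finset.mul_sum]
      refine Finset.sum_congr rfl fun σ _ => ?_
      have h2 := prod_smul_multiset (↑u⁻¹ : A) a (σ : Multiset (Fin (r + 1)))
      rw [hcd] at h2
      show c σ * (Multiset.map (fun i => (↑u⁻¹ : A) * a i) (σ : Multiset (Fin (r + 1)))).prod = _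
      rw [h2]; ring
    rw [h1]
    refine IsUnit.mul ((Units.isUnit _).pow n) ?_
    by_contra hnu
    exact hval ((mem_maximalIdeal _).mpr hnu)
  -- the new ideal
  let g : Fin r → A := fun i => f (j.succAbove i) - b (j.succAbove i) * f j
  set I' : Ideal A := Ideal.span (Set.range g) with hI'def
  have hgI : ∀ i, g i ∈ I := fun i =>
    Ideal.sub_mem _ (hfI _) (Ideal.mul_mem_left _ _ (hfI _))
  have hI'I : I' ≤ I := by
    rw [hI'def, Ideal.span_le]
    rintro _ ⟨i, rfl⟩
    exact hgI i
  have hfb : ∀ i, f i - b i * f j ∈ I' := by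
    intro i
    by_cases hij : i = j
    · subst hij
      rw [hbj, one_mul, sub_self]
      exact Ideal.zero_mem _
    · obtain ⟨i', rfl⟩ := Fin.exists_succAbove_eq hij
      exact Ideal.subset_span ⟨i', rfl⟩
  have hIsup : I ≤ I' ⊔ Ideal.span {f j} := by
    rw [hIdef, Ideal.span_le]
    rintro _ ⟨i, rfl⟩
    have h1 : f i = (f i - b i * f j) + b i * f j := by ring
    rw [h1]
    exact Ideal.add_mem _ (le_sup_left (a := I') (hfb i))
      (le_sup_right (a := I') (Ideal.mul_mem_left _ _ (Ideal.mem_span_singleton_self _)))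
  -- `f j ^ n`
  have hfj : f j ^ n ∈ I' * I ^ (n - 1) ⊔ maximalIdeal A * I ^ n := by
    have h1 : (∑ σ : Sym (Fin (r + 1)) n, c σ * ((σ : Multiset (Fin (r + 1))).map b).prod) *
        f j ^ n ∈ I' * I ^ (n - 1) ⊔ maximalIdeal A * I ^ n := by
      have h2 : (∑ σ : Sym (Fin (r + 1)) n, c σ * ((σ : Multiset (Fin (r + 1))).map b).prod) *
          f j ^ n = -(∑ σ : Sym (Fin (r + 1)) n, c σ *
            (((σ : Multiset (Fin (r + 1))).map f).prod -
              ((σ : Multiset (Fin (r + 1))).map b).prod * f j ^ n)) +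
            ∑ σ : Sym (Fin (r + 1)) n, c σ * ((σ : Multiset (Fin (r + 1))).map f).prod := by
        rw [Finset.sum_mul, ← Finset.sum_neg_distrib, ← Finset.sum_add_distrib]
        refine Finset.sum_congr rfl fun σ _ => by ring
      rw [h2]
      refine Ideal.add_mem _ (le_sup_left (a := I' * I ^ (n - 1)) (Ideal.neg_mem_iff _ |>.mpr
        (Ideal.sum_mem _ fun σ _ => Ideal.mul_mem_left _ _ ?_)))
        (le_sup_right (a := I' * I ^ (n - 1)) hc)
      have h3 := prod_congr_mod I I' (f j) (hfI j) f b hfI hfb (σ : Multiset (Fin (r + 1)))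
      rw [hcd] at h3
      exact h3
    obtain ⟨w, hw⟩ := hvalb
    rw [← hw] at h1
    have h2 := Ideal.mul_mem_left _ (↑w⁻¹ : A) h1
    rwa [← mul_assoc, Units.inv_mul, one_mul] at h2
  have hIn : I ^ n ≤ I' * I ^ (n - 1) ⊔ maximalIdeal A • I ^ n := by
    refine (pow_le_sup I I' (Ideal.span {f j}) hIsup
      ((Ideal.span_singleton_le_iff_mem _).mpr (hfI j)) n).trans (sup_le le_sup_left ?_)
    rw [Ideal.span_singleton_pow, Ideal.span_singleton_le_iff_mem]
    exact hfj
  have hnak : I ^ n ≤ I' * I ^ (n - 1) :=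
    Submodule.le_of_le_smul_of_le_jacobson_bot (IsNoetherian.noetherian _)
      (IsLocalRing.maximalIdeal_le_jacobson _) hIn
  refine ⟨g, fun i => hIm (hgI i), n - 1 + s, by omega, ?_⟩
  apply le_antisymm
  · rw [pow_succ']
    exact Ideal.mul_mono_left (hI'I.trans hIm)
  · have h1 : n - 1 + s + 1 = n + s := by omega
    rw [h1, ← red_pow hI n]
    calc I ^ n * maximalIdeal A ^ s ≤ I' * I ^ (n - 1) * maximalIdeal A ^ s :=
          Ideal.mul_mono_left hnak
      _ ≤ I' * (maximalIdeal A ^ (n - 1) * maximalIdeal A ^ s) := by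
          rw [mul_assoc]
          exact Ideal.mul_mono_right (Ideal.mul_mono_left (Ideal.pow_right_mono hIm _))
      _ = I' * maximalIdeal A ^ (n - 1 + s) := by rw [pow_add]

theorem red_exists [IsNoetherianRing A] [Infinite (ResidueField A)] {d : ℕ}
    (hG : ∀ s : ℕ, ∃ n : ℕ, 1 ≤ n ∧
      ∑ i ∈ Finset.Ico n (n + s), Submodule.spanFinrank (maximalIdeal A ^ i) < (n + d).choose d) :
    Red A d := by
  obtain ⟨r, hr⟩ := red_init (A := A)
  rcases le_total d r with h | h
  · -- descend
    obtain ⟨k, rfl⟩ := Nat.exists_eq_add_of_le h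
    induction k with
    | zero => exact hr
    | succ k ih =>
      exact ih (red_step (by omega) hG hr) (by omega)
  · obtain ⟨k, rfl⟩ := Nat.exists_eq_add_of_le h
    clear hG h
    induction k with
    | zero => exact hr
    | succ k ih => exact ih.pad

end red

end Pool.Agent.H19.Mult
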