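import Pool.Agent.H19.Mult.Red

/-!
# MP_dca5ce_ag: regular sequences in dimension one and two, lengths of powers
-/

namespace Pool.Agent.H19.Mult

open IsLocalRing Filter Topology

universe u

section domain

variable {A : Type u} [CommRing A]

/-- general lower bound for the length of `J / I` -/
theorem length_ge {I J Q : Ideal A} {m : ℕ} (e : Fin m → A) (he : ∀ i, e i ∈ J)
    (hq : ∀ i, ∀ a ∈ Q, a * e i ∈ I)
    (hinj : ∀ c : Fin m → A, ∑ i, c i * e i ∈ I → ∀ i, c i ∈ Q) :
    m * Ln Q ≤ Module.length A (J ⧸ (Submodule.comap J.subtype I)) := by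
  let W := J ⧸ (Submodule.comap J.subtype I)
  let g : Fin m → ((A ⧸ Q) →ₗ[A] W) := fun i =>
    Submodule.liftQ Q (LinearMap.toSpanSingleton A W (Submodule.Quotient.mk ⟨e i, he i⟩)) (by
      intro a ha
      rw [LinearMap.mem_ker, LinearMap.toSpanSingleton_apply, ← Submodule.Quotient.mk_smul,
        Submodule.Quotient.mk_eq_zero]
      exact hq i a ha)
  let f : (Fin m → A ⧸ Q) →ₗ[A] W := ∑ i, (g i).comp (LinearMap.proj i)
  have hf : Function.Injective f := by
    rw [← LinearMap.ker_eq_bot, LinearMap.ker_eq_bot']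
    intro c hc
    choose c' hc' using fun i => Ideal.Quotient.mk_surjective (c i)
    have h1 : f c = Submodule.Quotient.mk (∑ i, c' i • (⟨e i, he i⟩ : J)) := by
      show (∑ i, (g i).comp (LinearMap.proj i)) c = _
      rw [LinearMap.sum_apply, ← Submodule.mkQ_apply, map_sum]
      refine Finset.sum_congr rfl fun i _ => ?_
      rw [map_smul, LinearMap.comp_apply, LinearMap.proj_apply, ← hc' i]
      rfl
    rw [h1, Submodule.Quotient.mk_eq_zero] at hc
    have h2 := Submodule.mem_comap.mp hc
    rw [map_sum] at h2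
    have h3 := hinj c' h2
    funext i
    rw [← hc' i]
    exact Ideal.Quotient.eq_zero_iff_mem.mpr (h3 i)
  have h4 := Module.length_le_of_injective f hf
  rw [Module.length_pi_of_fintype, Finset.sum_const, Finset.card_univ, Fintype.card_fin,
    nsmul_eq_mul] at h4
  exact h4

/-- generators of the powers of `(x, y)` -/
theorem pair_pow_le (x y : A) (n : ℕ) : Ideal.span {x, y} ^ n ≤
    Ideal.span (Set.range fun i : Fin (n + 1) => x ^ (i : ℕ) * y ^ (n - i)) := by
  induction n with
  | zero =>
    rw [pow_zero]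
    have : (1 : A) ∈ Ideal.span
        (Set.range fun i : Fin (0 + 1) => x ^ (i : ℕ) * y ^ (0 - (i : ℕ))) :=
      Ideal.subset_span ⟨0, by simp⟩
    rw [(Ideal.eq_top_iff_one _).mpr this]
    exact le_top
  | succ n ih =>
    rw [pow_succ']
    refine (Ideal.mul_mono_right ih).trans ?_
    rw [Ideal.span_mul_span', Ideal.span_le]
    rintro _ ⟨a, ha, _, ⟨i, rfl⟩, rfl⟩
    have hi : (i : ℕ) ≤ n := by have := i.2; omega
    rcases ha with ha | ha
    · refine Ideal.subset_span ⟨⟨i + 1, by omega⟩, ?_⟩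
      show x ^ ((i : ℕ) + 1) * y ^ (n + 1 - ((i : ℕ) + 1)) = a * (x ^ (i : ℕ) * y ^ (n - (i : ℕ)))
      have : n + 1 - ((i : ℕ) + 1) = n - (i : ℕ) := by omega
      rw [this, pow_succ, ha]; ring
    · rw [Set.mem_singleton_iff] at ha
      refine Ideal.subset_span ⟨⟨i, by omega⟩, ?_⟩
      show x ^ (i : ℕ) * y ^ (n + 1 - (i : ℕ)) = a * (x ^ (i : ℕ) * y ^ (n - (i : ℕ)))
      have : n + 1 - (i : ℕ) = n - (i : ℕ) + 1 := by omega
      rw [this, pow_succ, ha]; ring

theorem mem_pair_pow_succ {x y : A} {n : ℕ} {z : A} (hz : z ∈ Ideal.span {x, y} ^ (n + 1)) :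
    ∃ q : Fin (n + 1) → A, (∀ i, q i ∈ Ideal.span {x, y}) ∧
      z = ∑ i, q i * (x ^ (i : ℕ) * y ^ (n - i)) := by
  rw [pow_succ'] at hz
  have h1 := Ideal.mul_mono_right (I := Ideal.span {x, y}) (pair_pow_le x y n) hz
  rw [← Ideal.smul_eq_mul, Ideal.span, Submodule.mem_ideal_smul_span_iff_exists_sum] at h1
  obtain ⟨a, ha, hsum⟩ := h1
  refine ⟨a, ha, ?_⟩
  rw [← hsum, Finsupp.sum_fintype _ _ (by intro i; simp)]
  rfl

variable [IsDomain A]

theorem quasi {x y : A} (hx : x ≠ 0) (hy : ∀ z, y * z ∈ Ideal.span {x} → z ∈ Ideal.span {x})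
    (n : ℕ) : ∀ c : ℕ → A, ∑ i ∈ Finset.range (n + 1), c i * (x ^ i * y ^ (n - i)) = 0 →
      ∀ i ≤ n, c i ∈ Ideal.span {x, y} := by
  have hyn : ∀ (k : ℕ) (z : A), y ^ k * z ∈ Ideal.span {x} → z ∈ Ideal.span {x} := by
    intro k
    induction k with
    | zero => intro z hz; simpa using hz
    | succ k ih =>
      intro z hz
      rw [pow_succ', mul_assoc] at hz
      exact ih z (hy _ hz)
  have hle : Ideal.span {x} ≤ Ideal.span {x, y} := Ideal.span_mono (by simp)
  induction n with
  | zero =>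
    intro c hc i hi
    have hi0 : i = 0 := by omega
    subst hi0
    simp at hc
    rw [hc]
    exact Ideal.zero_mem _
  | succ n ih =>
    intro c hc i hi
    rw [Finset.sum_range_succ'] at hc
    -- `c 0 ∈ (x)`
    have h0 : c 0 ∈ Ideal.span {x} := by
      apply hyn (n + 1)
      rw [Ideal.mem_span_singleton]
      have h1 : y ^ (n + 1) * c 0 =
          x * -(∑ i ∈ Finset.range (n + 1), c (i + 1) * (x ^ i * y ^ (n - i))) := by
        have h2 : ∑ i ∈ Finset.range (n + 1), c (i + 1) * (x ^ (i + 1) * y ^ (n + 1 - (i + 1))) =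
            x * ∑ i ∈ Finset.range (n + 1), c (i + 1) * (x ^ i * y ^ (n - i)) := by
          rw [Finset.mul_sum]
          refine Finset.sum_congr rfl fun i _ => ?_
          have : n + 1 - (i + 1) = n - i := by omega
          rw [this, pow_succ]; ring
        rw [h2] at hc
        simp only [pow_zero, one_mul, Nat.sub_zero] at hc
        linear_combination hc
      rw [h1]
      exact dvd_mul_right _ _
    obtain ⟨e, he⟩ := Ideal.mem_span_singleton'.mp h0
    -- divide by `x`
    let c' : ℕ → A := fun i => if i = 0 then c 1 + e * y else c (i + 1)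
    have h3 : ∑ i ∈ Finset.range (n + 1), c' i * (x ^ i * y ^ (n - i)) = 0 := by
      apply mul_left_cancel₀ hx
      rw [mul_zero, ← hc]
      rw [Finset.sum_range_succ' (fun i => c' i * (x ^ i * y ^ (n - i))),
        Finset.sum_range_succ' (fun i => c (i + 1) * (x ^ (i + 1) * y ^ (n + 1 - (i + 1))))]
      have h4 : ∑ i ∈ Finset.range n, c (i + 1 + 1) * (x ^ (i + 1 + 1) * y ^ (n + 1 - (i + 1 + 1))) =
          x * ∑ i ∈ Finset.range n, c' (i + 1) * (x ^ (i + 1) * y ^ (n - (i + 1))) := by
        rw [Finset.mul_sum]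
        refine Finset.sum_congr rfl fun i _ => ?_
        have h5 : n + 1 - (i + 1 + 1) = n - (i + 1) := by omega
        have h6 : c' (i + 1) = c (i + 1 + 1) := if_neg (Nat.succ_ne_zero i)
        rw [h5, h6, pow_succ x (i + 1)]; ring
      rw [h4]
      have h7 : c' 0 = c 1 + e * y := if_pos rfl
      rw [h7, ← he]
      simp only [pow_zero, Nat.sub_zero, zero_add, Nat.add_sub_cancel, pow_one]
      rw [pow_succ y n]
      ring
    have h8 := ih c' h3
    rcases Nat.eq_zero_or_pos i with rfl | hi0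
    · exact hle h0
    · obtain ⟨i', rfl⟩ : ∃ i', i = i' + 1 := ⟨i - 1, by omega⟩
      have h9 := h8 i' (by omega)
      rcases Nat.eq_zero_or_pos i' with rfl | hi0'
      · have h10 : c' 0 = c 1 + e * y := if_pos rfl
        rw [h10] at h9
        have h11 : e * y ∈ Ideal.span {x, y} :=
          Ideal.mul_mem_left _ _ (Ideal.subset_span (by simp))
        have := Ideal.sub_mem _ h9 h11
        rwa [add_sub_cancel_right] at this
      · have h10 : c' i' = c (i' + 1) := if_neg hi0'.ne'
        rwa [h10] at h9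

/-- length of the powers of `(x, y)` -/
theorem Ln_pair_pow {x y : A} (hx : x ≠ 0)
    (hy : ∀ z, y * z ∈ Ideal.span {x} → z ∈ Ideal.span {x}) (n : ℕ) :
    ((n + 1).choose 2 : ℕ) * Ln (Ideal.span {x, y}) ≤ Ln (Ideal.span {x, y} ^ n) := by
  induction n with
  | zero => simp
  | succ n ih =>
    have hle : Ideal.span {x, y} ^ (n + 1) ≤ Ideal.span {x, y} ^ n := Ideal.pow_le_pow_right
      (Nat.le_succ n)
    rw [Ln_add hle]
    have h1 : ((n + 1 : ℕ) : ℕ∞) * Ln (Ideal.span {x, y}) ≤
        Module.length A ((Ideal.span {x, y} ^ n : Ideal A) ⧸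
          (Submodule.comap (Ideal.span {x, y} ^ n : Ideal A).subtype
            (Ideal.span {x, y} ^ (n + 1)))) := by
      have hmem : ∀ i : Fin (n + 1), x ^ (i : ℕ) * y ^ (n - i) ∈ Ideal.span {x, y} ^ n := by
        intro i
        have hi : (i : ℕ) ≤ n := by have := i.2; omega
        have h2 : x ^ (i : ℕ) * y ^ (n - i) ∈
            Ideal.span {x, y} ^ (i : ℕ) * Ideal.span {x, y} ^ (n - i) :=
          Ideal.mul_mem_mul (Ideal.pow_mem_pow (Ideal.subset_span (by simp)) _)
            (Ideal.pow_mem_pow (Ideal.subset_span (by simp)) _)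
        rw [← pow_add] at h2
        have h3 : (i : ℕ) + (n - i) = n := by omega
        rwa [h3] at h2
      refine length_ge (fun i : Fin (n + 1) => x ^ (i : ℕ) * y ^ (n - i)) hmem ?_ ?_
      · intro i a ha
        rw [pow_succ']
        exact Ideal.mul_mem_mul ha (hmem i)
      · intro c hc
        obtain ⟨q, hq, hsum⟩ := mem_pair_pow_succ hc
        let c' : ℕ → A := fun i => if h : i < n + 1 then c ⟨i, h⟩ - q ⟨i, h⟩ else 0
        have h4 : ∑ i ∈ Finset.range (n + 1), c' i * (x ^ i * y ^ (n - i)) = 0 := by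
          rw [Finset.sum_range]
          have h5 : ∀ i : Fin (n + 1), c' (i : ℕ) = c i - q i := by
            intro i
            show (if h : (i : ℕ) < n + 1 then c ⟨i, h⟩ - q ⟨i, h⟩ else 0) = _
            rw [dif_pos i.2]
          simp only [h5, sub_mul, Finset.sum_sub_distrib]
          rw [← hsum, sub_self]
        intro i
        have h6 := quasi hx hy n c' h4 i (by have := i.2; omega)
        have h5 : c' (i : ℕ) = c i - q i := by
          show (if h : (i : ℕ) < n + 1 then c ⟨i, h⟩ - q ⟨i, h⟩ else 0) = _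
          rw [dif_pos i.2]
        rw [h5] at h6
        have := Ideal.add_mem _ h6 (hq i)
        rwa [sub_add_cancel] at this
    have h2 : (n + 1 + 1).choose 2 = (n + 1) + (n + 1).choose 2 := by
      rw [Nat.choose_succ_succ' (n + 1) 1, Nat.choose_one_right]
    rw [h2]
    push_cast
    rw [add_mul]
    push_cast at h1
    exact add_le_add h1 ih

/-- length of the powers of `(x)` -/
theorem Ln_single_pow {x : A} (hx : x ≠ 0) (n : ℕ) :
    (n : ℕ∞) * Ln (Ideal.span {x}) ≤ Ln (Ideal.span {x} ^ n) := by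
  induction n with
  | zero => simp
  | succ n ih =>
    have hle : Ideal.span {x} ^ (n + 1) ≤ Ideal.span {x} ^ n := Ideal.pow_le_pow_right
      (Nat.le_succ n)
    rw [Ln_add hle]
    have h1 : ((1 : ℕ) : ℕ∞) * Ln (Ideal.span {x}) ≤
        Module.length A ((Ideal.span {x} ^ n : Ideal A) ⧸
          (Submodule.comap (Ideal.span {x} ^ n : Ideal A).subtype (Ideal.span {x} ^ (n + 1)))) := by
      refine length_ge (fun _ : Fin 1 => x ^ n)
        (fun _ => Ideal.pow_mem_pow (Ideal.mem_span_singleton_self x) n) ?_ ?_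
      · intro i a ha
        rw [pow_succ']
        exact Ideal.mul_mem_mul ha (Ideal.pow_mem_pow (Ideal.mem_span_singleton_self x) n)
      · intro c hc i
        rw [Fin.sum_univ_one, Ideal.span_singleton_pow, Ideal.mem_span_singleton', pow_succ'] at hc
        obtain ⟨a, ha⟩ := hc
        have hi : i = 0 := Subsingleton.elim _ _
        rw [hi, Ideal.mem_span_singleton']
        refine ⟨a, ?_⟩
        apply mul_right_cancel₀ (pow_ne_zero n hx)
        rw [← ha]; ring
    push_cast at h1 ⊢
    rw [add_mul, add_comm]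
    exact add_le_add h1 ih

end domain

section local_domain

variable {A : Type u} [CommRing A] [IsDomain A] [IsLocalRing A]

/-- depth two: no socle modulo a nonzero element -/
theorem socle_free {a b : A} (ha : a ≠ 0) (ham : a ∈ maximalIdeal A) (hbm : b ∈ maximalIdeal A)
    (hb : ∀ z, b * z ∈ Ideal.span {a} → z ∈ Ideal.span {a}) {x : A} (hx : x ≠ 0) {z : A}
    (hz : ∀ w ∈ maximalIdeal A, w * z ∈ Ideal.span {x}) : z ∈ Ideal.span {x} := by
  obtain ⟨u, hu⟩ := Ideal.mem_span_singleton'.mp (hz a ham)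
  obtain ⟨v, hv⟩ := Ideal.mem_span_singleton'.mp (hz b hbm)
  have h1 : a * v = b * u := by
    apply mul_left_cancel₀ hx
    calc x * (a * v) = a * (v * x) := by ring
      _ = a * (b * z) := by rw [hv]
      _ = b * (a * z) := by ring
      _ = b * (u * x) := by rw [hu]
      _ = x * (b * u) := by ring
  have h2 : b * u ∈ Ideal.span {a} := by
    rw [← h1]
    exact Ideal.mul_mem_right _ _ (Ideal.mem_span_singleton_self a)
  obtain ⟨u', hu'⟩ := Ideal.mem_span_singleton'.mp (hb u h2)
  rw [Ideal.mem_span_singleton']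
  refine ⟨u', ?_⟩
  apply mul_left_cancel₀ ha
  calc a * (u' * x) = (u' * a) * x := by ring
    _ = a * z := by rw [hu', hu]

/-- depth two: a system of parameters is a regular sequence -/
theorem regular_of_primary {a b : A} (ha : a ≠ 0) (ham : a ∈ maximalIdeal A)
    (hbm : b ∈ maximalIdeal A)
    (hb : ∀ z, b * z ∈ Ideal.span {a} → z ∈ Ideal.span {a}) {x y : A} (hx : x ≠ 0) {k : ℕ}
    (hk : maximalIdeal A ^ k ≤ Ideal.span {x, y}) :
    ∀ z, y * z ∈ Ideal.span {x} → z ∈ Ideal.span {x} := by
  intro z hz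
  by_contra hne
  classical
  have hex : ∃ k : ℕ, ∀ w ∈ maximalIdeal A ^ k, w * z ∈ Ideal.span {x} := by
    refine ⟨k, fun w hw => ?_⟩
    obtain ⟨p, q, hpq⟩ := Ideal.mem_span_pair.mp (hk hw)
    rw [← hpq, add_mul]
    refine Ideal.add_mem _ ?_ ?_
    · rw [mul_comm p x, mul_assoc]
      exact Ideal.mul_mem_right _ _ (Ideal.mem_span_singleton_self x)
    · rw [mul_assoc]
      exact Ideal.mul_mem_left _ _ hz
  have hspec := Nat.find_spec hex
  have hmin := fun m (hm : m < Nat.find hex) => Nat.find_min hex hm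
  rcases h0 : Nat.find hex with _ | m
  · rw [h0] at hspec
    apply hne
    have := hspec 1 (by simp)
    rwa [one_mul] at this
  · have h1 := hmin m (by omega)
    push Not at h1
    obtain ⟨w, hw, hwz⟩ := h1
    apply hwz
    apply socle_free ha ham hbm hb hx
    intro v hv
    rw [← mul_assoc]
    apply hspec
    rw [h0, pow_succ']
    exact Ideal.mul_mem_mul hv hw

end local_domain

end Pool.Agent.H19.Mult
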